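import Mathlib
import Pool.Agent.H237.Digits.Scales

/-!
# Packing for a dense set of pairwise coprime multipliers
-/

namespace Pool.Agent.H237.Sieve

open MeasureTheory Set Filter Topology Pool.Agent.H237.Primes Pool.Agent.H237.Gap

/-- `A` consists of `k` pairwise coprime integers in `[2, y]`, `y ≤ k ^ 2`. -/
structure Dns (A : Finset ℕ) (y : ℕ) : Prop where
  two : ∀ p ∈ A, 2 ≤ p
  le : ∀ p ∈ A, p ≤ y
  co : (A : Set ℕ).Pairwise Nat.Coprime
  sq : (y : ℝ) ≤ (A.card : ℝ) ^ 2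
  big : Real.exp 20 ≤ A.card

lemma Dns.card_le {A : Finset ℕ} {y : ℕ} (h : Dns A y) : A.card ≤ y := by
  calc A.card ≤ (Finset.Icc 1 y).card := by
        apply Finset.card_le_card
        intro p hp
        rw [Finset.mem_Icc]
        exact ⟨by have := h.two p hp; omega, h.le p hp⟩
    _ = y := by simp

variable {A : Finset ℕ} {y : ℕ} {ν : Measure UnitAddCircle} [IsProbabilityMeasure ν]

/-- The mass of the ball of radius `exp (- H)`. -/
noncomputable def G (ν : Measure UnitAddCircle) (H : ℝ) : ℝ := g ν (Real.exp (-H))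

omit [IsProbabilityMeasure ν] in
lemma G_anti [IsFiniteMeasure ν] {H H' : ℝ} (h : H ≤ H') : G ν H' ≤ G ν H := by
  unfold G
  apply g_mono
  apply Real.exp_le_exp.mpr
  linarith

/-- One small step. -/
lemma step1 (hA : Dns A y) (hinv : ∀ p ∈ A, Inv ν p) {H : ℝ} (hH : Real.log (2 * y) ≤ H) :
    G ν H - G ν (6 / 5 * H) ≤ 2 / A.card := by
  classical
  set k := A.card with hk
  have hkR : Real.exp 20 ≤ k := hA.big
  have hk0 : (0 : ℝ) < k := lt_of_lt_of_le (Real.exp_pos _) hkR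
  have hky : (k : ℝ) ≤ y := by exact_mod_cast hA.card_le
  have hy0 : (0 : ℝ) < y := by linarith
  set ℓ := Real.log y with hℓ
  have hℓ20 : 20 ≤ ℓ := by
    rw [hℓ, Real.le_log_iff_exp_le hy0]
    linarith
  have hl2' : Real.log 2 < 0.6931471808 := Real.log_two_lt_d9
  have hl0 : 0 < Real.log 2 := Real.log_pos (by norm_num)
  rw [Real.log_mul (by norm_num) hy0.ne'] at hH
  have hH0 : 0 < H := by linarith
  set l := ⌊(H - Real.log 2) / ℓ⌋₊ with hl
  have hx1 : 1 ≤ (H - Real.log 2) / ℓ := by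
    rw [le_div_iff₀ (by linarith)]
    linarith
  have hl1 : 1 ≤ l := by
    rw [hl, Nat.one_le_floor_iff]
    exact hx1
  have hl1R : (1 : ℝ) ≤ l := by exact_mod_cast hl1
  have hlx : (l : ℝ) ≤ (H - Real.log 2) / ℓ := Nat.floor_le (by linarith)
  have hlx2 : (H - Real.log 2) / ℓ < l + 1 := Nat.lt_floor_add_one _
  have hlℓ : l * ℓ ≤ H - Real.log 2 := by
    rwa [le_div_iff₀ (by linarith)] at hlx
  have hlℓ2 : (H - Real.log 2) / 2 ≤ l * ℓ := by
    rw [div_lt_iff₀ (by linarith)] at hlx2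
    nlinarith
  -- the large elements
  set A' := A.filter (fun p : ℕ => (k : ℝ) / 2 ≤ (p : ℝ)) with hA'
  have hcard : (k : ℝ) / 2 ≤ A'.card := by
    have h1 : (A.filter (fun p : ℕ => ¬ (k : ℝ) / 2 ≤ (p : ℝ))).card + A'.card = k := by
      rw [hA', add_comm]
      exact Finset.card_filter_add_card_filter_not _
    have h2 : ((A.filter (fun p : ℕ => ¬ (k : ℝ) / 2 ≤ (p : ℝ))).card : ℝ) ≤ k / 2 := by
      have h3 : (A.filter (fun p : ℕ => ¬ (k : ℝ) / 2 ≤ (p : ℝ))).card ≤ (Finset.Icc 1 ⌊(k : ℝ) / 2⌋₊).card := by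
        apply Finset.card_le_card
        intro p hp
        rw [Finset.mem_filter, not_le] at hp
        rw [Finset.mem_Icc]
        refine ⟨by have := hA.two p hp.1; omega, ?_⟩
        exact Nat.le_floor hp.2.le
      rw [Nat.card_Icc, Nat.add_sub_cancel] at h3
      calc ((A.filter (fun p : ℕ => ¬ (k : ℝ) / 2 ≤ (p : ℝ))).card : ℝ) ≤ (⌊(k : ℝ) / 2⌋₊ : ℝ) := by
            exact_mod_cast h3
        _ ≤ k / 2 := Nat.floor_le (by positivity)
    have h3 : ((A.filter (fun p : ℕ => ¬ (k : ℝ) / 2 ≤ (p : ℝ))).card : ℝ) + A'.card = k := by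
      exact_mod_cast h1
    linarith
  have hmem : ∀ p : A', (p : ℕ) ∈ A := fun p => (Finset.mem_filter.mp p.2).1
  have key := H237.Digits.single ν (ι := A') (u := fun p => (p : ℕ) ^ l)
    (fun p => pow_pos (by have := hA.two _ (hmem p); omega) _)
    (fun p q hpq => Nat.Coprime.pow _ _ (hA.co (hmem p) (hmem q) (fun h => hpq (Subtype.ext h))))
    (fun p => (hinv _ (hmem p)).pow _)
    (r := Real.exp (-H)) (v := Real.exp (1 / 5 * H)) (Real.exp_pos _) ?_ (Real.exp_pos _) ?_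
  · rw [Fintype.card_coe, ← Real.exp_sub] at key
    have e : -H - 1 / 5 * H = -(6 / 5 * H) := by ring
    rw [e] at key
    have h1 : 0 ≤ G ν H - G ν (6 / 5 * H) := by
      rw [sub_nonneg]
      exact G_anti (by linarith)
    have h2 : (k : ℝ) / 2 * (G ν H - G ν (6 / 5 * H)) ≤ 1 :=
      le_trans (mul_le_mul_of_nonneg_right hcard h1) key
    rw [le_div_iff₀ hk0]
    linarith
  · intro p
    have h1 : ((p : ℕ) : ℝ) ≤ y := by exact_mod_cast hA.le _ (hmem p)
    have h2 : (((p : ℕ) ^ l : ℕ) : ℝ) ≤ Real.exp (l * ℓ) := by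
      push_cast
      rw [Real.exp_nat_mul, Real.exp_log hy0]
      exact pow_le_pow_left₀ (by positivity) h1 l
    have h3 : Real.exp (l * ℓ) ≤ Real.exp H / 2 := by
      rw [show Real.exp H / 2 = Real.exp (H - Real.log 2) by
        rw [Real.exp_sub, Real.exp_log (by norm_num)]]
      exact Real.exp_le_exp.mpr hlℓ
    have h4 : Real.exp (-H) * Real.exp H = 1 := by
      rw [← Real.exp_add]; simp
    calc 2 * Real.exp (-H) * (((p : ℕ) ^ l : ℕ) : ℝ) ≤ 2 * Real.exp (-H) * (Real.exp H / 2) :=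
          mul_le_mul_of_nonneg_left (le_trans h2 h3) (by positivity)
      _ = Real.exp (-H) * Real.exp H := by ring
      _ ≤ 1 := h4.le
  · intro p
    have h1 : (k : ℝ) / 2 ≤ ((p : ℕ) : ℝ) := (Finset.mem_filter.mp p.2).2
    have hk2 : 0 < (k : ℝ) / 2 := by positivity
    have h2 : Real.exp (l * Real.log (k / 2)) ≤ (((p : ℕ) ^ l : ℕ) : ℝ) := by
      push_cast
      rw [Real.exp_nat_mul, Real.exp_log hk2]
      exact pow_le_pow_left₀ hk2.le h1 l
    refine le_trans (Real.exp_le_exp.mpr ?_) h2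
    have h3 : ℓ / 2 ≤ Real.log k := by
      have h4 := Real.log_le_log hy0 hA.sq
      rw [Real.log_pow] at h4
      push_cast at h4
      linarith
    rw [Real.log_div hk0.ne' (by norm_num)]
    have h5 : ℓ / 2 * 0.93 ≤ Real.log k - Real.log 2 := by linarith
    have h6 : (l : ℝ) * (ℓ / 2 * 0.93) ≤ l * (Real.log k - Real.log 2) :=
      mul_le_mul_of_nonneg_left h5 (by linarith)
    have h7 : (H - Real.log 2) / 2 * (0.93 / 2) ≤ (l : ℝ) * (ℓ / 2 * 0.93) := by nlinarith
    linarith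

lemma step2 (hA : Dns A y) (hinv : ∀ p ∈ A, Inv ν p) {H : ℝ} (hH : Real.log (2 * y) ≤ H)
    (hH0 : 0 ≤ H) : G ν H - G ν (5 / 4 * H) ≤ 4 / A.card := by
  have h1 := step1 hA hinv hH
  have h2 := step1 hA hinv (H := 6 / 5 * H) (by linarith)
  have h3 : G ν (6 / 5 * (6 / 5 * H)) ≤ G ν (5 / 4 * H) := G_anti (by linarith)
  have h4 : (4 : ℝ) / A.card = 2 / A.card + 2 / A.card := by ring
  linarith

omit [IsProbabilityMeasure ν] in
lemma b_eq_G (i j : ℕ) : b ν i - b ν j = G ν ((5 / 4) ^ i) - G ν ((5 / 4) ^ j) := by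
  unfold b G
  ring

lemma stepn (hA : Dns A y) (hinv : ∀ p ∈ A, Inv ν p) {J : ℕ} (hJ : Real.log (2 * y) ≤ (5 / 4 : ℝ) ^ J)
    (n : ℕ) : b ν J - b ν (J + n) ≤ 4 * n / A.card := by
  induction n with
  | zero => simp
  | succ n ih =>
    have h1 : (5 / 4 : ℝ) ^ J ≤ (5 / 4) ^ (J + n) := pow_le_pow_right₀ (by norm_num) (by omega)
    have h2 := step2 hA hinv (H := (5 / 4 : ℝ) ^ (J + n)) (by linarith) (by positivity)
    have h3 : b ν (J + n) - b ν (J + (n + 1)) = G ν ((5 / 4) ^ (J + n)) -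
        G ν (5 / 4 * (5 / 4) ^ (J + n)) := by
      rw [b_eq_G, ← add_assoc, pow_succ (5 / 4 : ℝ) (J + n), mul_comm]
    have h4 : 4 * ((n + 1 : ℕ) : ℝ) / A.card = 4 * n / A.card + 4 / A.card := by
      push_cast; ring
    linarith

/-- `exp (- exp (exp (k / 1000)))`. -/
noncomputable def rr (k : ℕ) : ℝ := Real.exp (-Real.exp (Real.exp (1 / 1000 * k)))

/-- The constants for the last scales. -/
structure Goodk (k : ℕ) : Prop where
  big : Real.exp 20 ≤ k
  kK : (k : ℝ) ≤ Real.exp (1 / 1000 * k)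
  err : 17 * (⌈5 * Real.exp (1 / 1000 * (k : ℝ))⌉₊ : ℝ) * (1 / 2) ^ (k / 256) +
    1 / (⌈5 * Real.exp (1 / 1000 * (k : ℝ))⌉₊ : ℝ) ≤ 2 / k

lemma eventually_goodk : ∀ᶠ k : ℕ in atTop, Goodk k := by
  have e1 : ∀ᶠ z : ℝ in atTop, 204 * z * Real.exp (-(17 / 10000 * z)) ≤ 1 := by
    have h2 : Tendsto (fun z : ℝ => (17 / 10000 * z) ^ 1 * Real.exp (-(17 / 10000 * z))) atTop
        (𝓝 0) := by
      have h3 : Tendsto (fun l : ℝ => 17 / 10000 * l) atTop atTop :=
        tendsto_id.const_mul_atTop (by norm_num)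
      exact (Real.tendsto_pow_mul_exp_neg_atTop_nhds_zero 1).comp h3
    filter_upwards [h2.eventually (gt_mem_nhds (show (0 : ℝ) < 17 / 10000 / 204 by norm_num))] with z hz
    rw [pow_one] at hz
    nlinarith
  have e2 : ∀ᶠ z : ℝ in atTop, z ≤ Real.exp (1 / 1000 * z) := by
    filter_upwards [eventually_ge_atTop (2000000 : ℝ)] with z hz
    have h2 := Real.quadratic_le_exp_of_nonneg (show 0 ≤ 1 / 1000 * z by linarith)
    nlinarith
  filter_upwards [tendsto_natCast_atTop_atTop.eventually (eventually_ge_atTop (Real.exp 20)),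
    tendsto_natCast_atTop_atTop.eventually e1, tendsto_natCast_atTop_atTop.eventually e2] with
    k h1 h2 h3
  refine ⟨h1, h3, ?_⟩
  have hk0 : (0 : ℝ) < k := lt_of_lt_of_le (Real.exp_pos _) h1
  set v := Real.exp (1 / 1000 * (k : ℝ)) with hv
  have hv0 : 0 < v := Real.exp_pos _
  have hv1 : 1 ≤ v := by
    rw [hv, Real.one_le_exp_iff]
    positivity
  set K₀ := ⌈5 * v⌉₊ with hK₀
  have hK1 : 5 * v ≤ K₀ := Nat.le_ceil _
  have hK2 : (K₀ : ℝ) < 5 * v + 1 := Nat.ceil_lt_add_one (by positivity)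
  have hm : (k : ℝ) / 256 - 1 ≤ ((k / 256 : ℕ) : ℝ) := by
    have h1 : k < 256 * (k / 256 + 1) := by omega
    have h2 : (k : ℝ) < 256 * (((k / 256 : ℕ) : ℝ) + 1) := by exact_mod_cast h1
    linarith
  have hβ := half_pow_le hm
  set β : ℝ := (1 / 2) ^ (k / 256) with hβdef
  have hβ0 : 0 ≤ β := by positivity
  have hlog2 : 0.6931471803 < Real.log 2 := Real.log_two_gt_d9
  have hEB : 17 * K₀ * β ≤ 1 / k := by
    have h4 : Real.exp (-((k : ℝ) / 256 * Real.log 2)) ≤ Real.exp (-(27 / 10000 * k)) := by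
      apply Real.exp_le_exp.mpr
      nlinarith
    have h5 : 17 * K₀ * β ≤ 17 * (6 * v) * (2 * Real.exp (-(27 / 10000 * k))) := by
      apply mul_le_mul _ (by linarith) hβ0 (by positivity)
      linarith
    refine le_trans h5 ?_
    have h6 : v * Real.exp (-(27 / 10000 * (k : ℝ))) = Real.exp (-(17 / 10000 * k)) := by
      rw [hv, ← Real.exp_add]; congr 1; ring
    have h7 : 17 * (6 * v) * (2 * Real.exp (-(27 / 10000 * (k : ℝ)))) =
        204 * Real.exp (-(17 / 10000 * k)) := by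
      rw [← h6]; ring
    rw [h7, le_div_iff₀ hk0]
    linarith
  have hEK : 1 / (K₀ : ℝ) ≤ 1 / k := by
    apply one_div_le_one_div_of_le hk0
    linarith
  have : (2 : ℝ) / k = 1 / k + 1 / k := by ring
  rw [this]
  linarith

/-- **The mass between the first and the last scale.** -/
theorem pack_A (hA : Dns A y) (hg : Goodk A.card) (hinv : ∀ p ∈ A, Inv ν p) :
    g ν (1 / (2 * y)) - g ν (rr A.card) ≤ 500 * Real.log (Real.log A.card) / A.card := by
  obtain ⟨hbig, hkK, herr⟩ := hg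
  set k := A.card with hk
  have hk0 : (0 : ℝ) < k := lt_of_lt_of_le (Real.exp_pos _) hbig
  have hky : (k : ℝ) ≤ y := by exact_mod_cast hA.card_le
  have hy0 : (0 : ℝ) < y := by linarith
  set ℓ := Real.log y with hℓ
  set κ := Real.log k with hκ
  have hκ20 : 20 ≤ κ := by
    rw [hκ, Real.le_log_iff_exp_le hk0]
    exact hbig
  have hκℓ : κ ≤ ℓ := Real.log_le_log hk0 hky
  have hl2' : Real.log 2 < 0.6931471808 := Real.log_two_lt_d9
  have hl2 : 0.6931471803 < Real.log 2 := Real.log_two_gt_d9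
  have hlog54 : 1 / 5 ≤ Real.log (5 / 4) := by
    have := Real.one_sub_inv_le_log_of_pos (show (0 : ℝ) < 5 / 4 by norm_num)
    norm_num at this
    linarith
  have hlog2y : Real.log (2 * y) = Real.log 2 + ℓ := Real.log_mul (by norm_num) hy0.ne'
  set H₀ := Real.log (2 * y) with hH₀
  -- the first scale
  obtain ⟨J', hJ1, hJ2⟩ := exists_nat_pow_near (show 1 ≤ H₀ by linarith)
    (show (1 : ℝ) < 5 / 4 by norm_num)
  set J₀ := J' + 1 with hJ₀
  have hJ0up : (5 / 4 : ℝ) ^ J₀ ≤ 5 / 4 * H₀ := by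
    rw [hJ₀, pow_succ]
    linarith
  -- from `H₀` to `J₀`
  have hs0 : g ν (1 / (2 * y)) - G ν ((5 / 4) ^ J₀) ≤ 4 / k := by
    have h1 : g ν (1 / (2 * y)) = G ν H₀ := by
      unfold G
      rw [Real.exp_neg, Real.exp_log (by positivity), one_div]
    rw [h1]
    have h2 := step2 hA hinv (H := H₀) le_rfl (by linarith)
    have h3 : G ν (5 / 4 * H₀) ≤ G ν ((5 / 4) ^ J₀) := G_anti hJ0up
    linarith
  -- the second scale
  have hHH : 1 ≤ 16 * κ * ℓ := by nlinarith
  obtain ⟨J'', hJ3, hJ4⟩ := exists_nat_pow_near hHH (show (1 : ℝ) < 5 / 4 by norm_num)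
  set J₁ := J'' + 1 with hJ₁
  have hJ1up : (5 / 4 : ℝ) ^ J₁ ≤ 20 * κ * ℓ := by
    rw [hJ₁, pow_succ]
    linarith
  have hJ01 : J₀ ≤ J₁ := by
    have h1 : (5 / 4 : ℝ) ^ J' < (5 / 4) ^ (J'' + 1) := by
      refine lt_of_le_of_lt hJ1 (lt_of_le_of_lt ?_ hJ4)
      nlinarith
    have h2 := (pow_lt_pow_iff_right₀ (show (1 : ℝ) < 5 / 4 by norm_num)).mp h1
    omega
  obtain ⟨n, hn⟩ := Nat.exists_eq_add_of_le hJ01
  have hnle : (n : ℝ) ≤ 5 * (3 + Real.log κ) := by
    have h1 : (5 / 4 : ℝ) ^ J₀ * (5 / 4) ^ n ≤ 20 * κ * ℓ := by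
      rw [← pow_add, ← hn]
      exact hJ1up
    have h2 : ℓ ≤ (5 / 4 : ℝ) ^ J₀ := by
      rw [hJ₀]
      linarith
    have hpn : (0 : ℝ) < (5 / 4) ^ n := by positivity
    have h3 : ℓ * (5 / 4) ^ n ≤ ℓ * (20 * κ) := by
      calc ℓ * (5 / 4 : ℝ) ^ n ≤ (5 / 4) ^ J₀ * (5 / 4) ^ n := mul_le_mul_of_nonneg_right h2 hpn.le
        _ ≤ 20 * κ * ℓ := h1
        _ = ℓ * (20 * κ) := by ring
    have h4 : (5 / 4 : ℝ) ^ n ≤ 20 * κ := le_of_mul_le_mul_left h3 (by linarith)
    have h5 : n * Real.log (5 / 4) ≤ Real.log (20 * κ) := by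
      rw [← Real.log_pow]
      exact Real.log_le_log hpn h4
    rw [Real.log_mul (by norm_num) (by linarith)] at h5
    have h6 : Real.log 20 ≤ 3 := by
      rw [Real.log_le_iff_le_exp (by norm_num)]
      have h7 : (2.7182818283 : ℝ) < Real.exp 1 := Real.exp_one_gt_d9
      calc (20 : ℝ) ≤ 2.7182818283 ^ 3 := by norm_num
        _ ≤ Real.exp 1 ^ 3 := pow_le_pow_left₀ (by norm_num) h7.le 3
        _ = Real.exp 3 := by rw [← Real.exp_nat_mul]; norm_num
    nlinarith
  have hs1 : b ν J₀ - b ν J₁ ≤ 20 * (3 + Real.log κ) / k := by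
    rw [hn]
    refine le_trans (stepn hA hinv (by linarith) n) ?_
    apply div_le_div_of_nonneg_right _ hk0.le
    linarith
  have hδ : b ν J₁ - b ν (J₁ + 4) ≤ 16 / k := by
    have h1 : H₀ ≤ (5 / 4 : ℝ) ^ J₁ := by
      have : (5 / 4 : ℝ) ^ J₀ ≤ (5 / 4) ^ J₁ := pow_le_pow_right₀ (by norm_num) hJ01
      linarith
    have h2 := stepn hA hinv h1 4
    norm_num at h2 ⊢
    linarith
  set K₀ := ⌈5 * Real.exp (1 / 1000 * (k : ℝ))⌉₊ with hK₀
  set M := k / 256 with hM
  set β : ℝ := (1 / 2) ^ M with hβdef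
  have hβ0 : 0 ≤ β := by positivity
  have hK1 : 5 * Real.exp (1 / 1000 * (k : ℝ)) ≤ K₀ := Nat.le_ceil _
  have hK₀1 : 1 ≤ K₀ := by
    rw [hK₀, Nat.one_le_ceil_iff]
    positivity
  have hK0R : (0 : ℝ) < K₀ := by exact_mod_cast hK₀1
  have hk256 : 256 ≤ k := by
    have h1 := Real.add_one_le_exp (20 : ℝ)
    have h2 : (2 : ℝ) ^ 20 ≤ Real.exp 20 := by
      have h3 : (2 : ℝ) ≤ Real.exp 1 := by
        have := Real.add_one_le_exp (1 : ℝ)
        linarith
      calc (2 : ℝ) ^ 20 ≤ Real.exp 1 ^ 20 := pow_le_pow_left₀ (by norm_num) h3 20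
        _ = Real.exp 20 := by rw [← Real.exp_nat_mul]; norm_num
    have h3 : (256 : ℝ) ≤ k := by
      norm_num at h2
      linarith
    exact_mod_cast h3
  have hM1 : 1 ≤ M := by omega
  have hℓk : ℓ ≤ k := by
    have h1 := Real.log_le_log hy0 hA.sq
    rw [Real.log_pow] at h1
    have h2 : Real.log k ≤ k / 2 := by
      have h3 : Real.log (Real.sqrt k) ≤ Real.sqrt k - 1 :=
        Real.log_le_sub_one_of_pos (Real.sqrt_pos.mpr hk0)
      rw [Real.log_sqrt hk0.le] at h3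
      have h4 : Real.sqrt k ≤ k / 4 + 1 := by
        have h5 : Real.sqrt k ^ 2 = k := Real.sq_sqrt hk0.le
        nlinarith [sq_nonneg (Real.sqrt k - 2)]
      linarith
    push_cast at h1
    linarith
  obtain ⟨K', hKa, hKb, hKc⟩ := exists_block (b_antitone ν) (b_nonneg ν) (b_le_one ν) K₀ K₀ hK₀1
  have hJK₀ : J₁ + 4 ≤ K₀ := by
    have h1 : J₁ * Real.log (5 / 4) ≤ Real.log (20 * κ * ℓ) := by
      rw [← Real.log_pow]
      exact Real.log_le_log (by positivity) hJ1up
    have h2 : 20 * κ * ℓ ≤ 20 * (k * k) := by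
      have h3 : κ ≤ k := by linarith
      nlinarith
    have h3 : Real.log (20 * κ * ℓ) ≤ Real.log (20 * (k * k)) := Real.log_le_log (by nlinarith) h2
    have e3 : Real.log (20 * ((k : ℝ) * k)) = Real.log 20 + (κ + κ) := by
      rw [Real.log_mul (by norm_num) (by positivity), Real.log_mul hk0.ne' hk0.ne']
    rw [e3] at h3
    have h4 : (J₁ : ℝ) ≤ 5 * (Real.log 20 + (κ + κ)) := by
      have : (0 : ℝ) ≤ J₁ := Nat.cast_nonneg _
      nlinarith
    have h5 : κ ≤ k / 100 := by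
      have h5a := Real.quadratic_le_exp_of_nonneg (show 0 ≤ κ / 2 by linarith)
      have h5b : 3 * κ ≤ Real.exp (κ / 2) := by nlinarith
      have h5c : Real.exp (κ / 2) ^ 2 = k := by
        rw [← Real.exp_nat_mul]
        push_cast
        rw [mul_div_cancel₀ _ (two_ne_zero), hκ, Real.exp_log hk0]
      nlinarith
    have h6 : Real.log 20 ≤ 3 := by
      rw [Real.log_le_iff_le_exp (by norm_num)]
      have h7 : (2.7182818283 : ℝ) < Real.exp 1 := Real.exp_one_gt_d9
      calc (20 : ℝ) ≤ 2.7182818283 ^ 3 := by norm_num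
        _ ≤ Real.exp 1 ^ 3 := pow_le_pow_left₀ (by norm_num) h7.le 3
        _ = Real.exp 3 := by rw [← Real.exp_nat_mul]; norm_num
    have h7 : ((J₁ + 4 : ℕ) : ℝ) ≤ K₀ := by
      push_cast
      linarith
    exact_mod_cast h7
  have hsteps : ∀ j, J₁ ≤ j → j + 20 ≤ K' → b ν (j + 4) - b ν (j + 5) ≤
      4 / 85 * (b ν j - b ν (j + 20)) + (2 / k * (1 / 2) ^ (j - J₁) + β) := by
    intro j hj _
    obtain ⟨i, rfl⟩ := Nat.exists_eq_add_of_le hj
    rw [Nat.add_sub_cancel_left]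
    have hp0 : (0 : ℝ) < (5 / 4) ^ (J₁ + i + 4) := by positivity
    have hj1 : 1 ≤ J₁ + i := by omega
    have hlogp : ∀ p ∈ A, Real.log p ≤ ℓ := by
      intro p hp
      have h1 : (0 : ℝ) < p := by exact_mod_cast (by have := hA.two p hp; omega : 0 < p)
      exact Real.log_le_log h1 (by exact_mod_cast hA.le p hp)
    set x := (5 / 4 : ℝ) ^ (J₁ + i + 4) / (8 * ℓ) with hx
    have hℓ0 : 0 < ℓ := by linarith
    have hx0 : 0 < x := by positivity
    rcases le_or_gt ((k : ℝ) / 256) x with hc | hc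
    · obtain ⟨s, hs1, hs2⟩ := Finset.exists_subset_card_eq (show 256 * M ≤ A.card by omega)
      have h1 := b_step ν hM1 s hs2 (fun p hp => hA.two p (hs1 hp))
        (hA.co.mono (by exact_mod_cast hs1)) (fun p hp => hinv p (hs1 hp)) hj1 (by
          intro p hp
          refine le_trans (hlogp p (hs1 hp)) ?_
          have hMR : (1 : ℝ) ≤ M := by exact_mod_cast hM1
          have hM2 : (M : ℝ) ≤ x := by
            refine le_trans ?_ hc
            rw [hM]
            exact Nat.cast_div_le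
          rw [hx, le_div_iff₀ (by linarith)] at hM2
          rw [div_div, le_div_iff₀ (by positivity)]
          linarith)
      have h2 : 0 ≤ 2 / (k : ℝ) * (1 / 2) ^ i := by positivity
      linarith
    · set m := ⌊x⌋₊ with hm
      have hxlow : 4 * κ * (1 + i / 4) ≤ x := by
        rw [hx, le_div_iff₀ (by linarith), add_assoc, pow_add (5 / 4 : ℝ) J₁ (i + 4),
          pow_add (5 / 4 : ℝ) i 4]
        have h1 : 1 + (i : ℝ) / 4 ≤ (5 / 4 : ℝ) ^ i := by
          have := one_add_mul_le_pow (show (-2 : ℝ) ≤ 1 / 4 by norm_num) i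
          norm_num at this ⊢
          linarith
        have h2 : 16 * κ * ℓ ≤ (5 / 4 : ℝ) ^ J₁ := hJ4.le
        have h3 : (0 : ℝ) ≤ 1 + (i : ℝ) / 4 := by positivity
        calc 4 * κ * (1 + (i : ℝ) / 4) * (8 * ℓ) = 16 * κ * ℓ * ((1 + (i : ℝ) / 4) * 2) := by ring
          _ ≤ (5 / 4 : ℝ) ^ J₁ * ((5 / 4 : ℝ) ^ i * (5 / 4) ^ 4) := by
              refine mul_le_mul h2 ?_ (by positivity) (by positivity)
              refine mul_le_mul h1 ?_ (by norm_num) (by positivity)
              norm_num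
      have hi0 : (0 : ℝ) ≤ (i : ℝ) := Nat.cast_nonneg i
      have hm1 : 1 ≤ m := by
        rw [hm, Nat.one_le_floor_iff]
        nlinarith
      have hmx : (m : ℝ) ≤ x := Nat.floor_le hx0.le
      have hmk : 256 * m ≤ A.card := by
        have h1 : (256 : ℝ) * m ≤ k := by linarith
        exact_mod_cast h1
      obtain ⟨s, hs1, hs2⟩ := Finset.exists_subset_card_eq hmk
      have h1 := b_step ν hm1 s hs2 (fun p hp => hA.two p (hs1 hp))
        (hA.co.mono (by exact_mod_cast hs1)) (fun p hp => hinv p (hs1 hp)) hj1 (by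
          intro p hp
          refine le_trans (hlogp p (hs1 hp)) ?_
          have hMR : (1 : ℝ) ≤ m := by exact_mod_cast hm1
          have hM2 := hmx
          rw [hx, le_div_iff₀ (by linarith)] at hM2
          rw [div_div, le_div_iff₀ (by positivity)]
          linarith)
      have h2 : (1 / 2 : ℝ) ^ m ≤ 2 / k * (1 / 2) ^ i := by
        have h3 : x - 1 ≤ m := by
          have := Nat.lt_floor_add_one x
          linarith
        refine le_trans (half_pow_le h3) ?_
        have h4 : Real.exp (-(x * Real.log 2)) ≤ Real.exp (-(κ + i * Real.log 2)) := by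
          apply Real.exp_le_exp.mpr
          apply neg_le_neg
          have h5 : 4 * κ * (1 + i / 4) * 0.6931471803 ≤ x * Real.log 2 :=
            mul_le_mul hxlow hl2.le (by norm_num) hx0.le
          nlinarith
        have h5 : Real.exp (-(κ + i * Real.log 2)) = 1 / k * (1 / 2) ^ i := by
          rw [neg_add, Real.exp_add, Real.exp_neg κ, Real.exp_log hk0, Real.exp_neg,
            Real.exp_nat_mul, Real.exp_log (by norm_num), one_div, one_div, inv_pow]
        rw [h5] at h4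
        have h6 : 2 / (k : ℝ) * (1 / 2) ^ i = 2 * (1 / k * (1 / 2) ^ i) := by ring
        rw [h6]
        linarith
      linarith
  have hsum : ∑ i ∈ Finset.range (K' - 19 - J₁), (2 / k * (1 / 2 : ℝ) ^ (J₁ + i - J₁) + β) ≤
      4 / k + 17 * K₀ * β := by
    rw [Finset.sum_add_distrib]
    apply add_le_add
    · simp_rw [Nat.add_sub_cancel_left]
      rw [← Finset.mul_sum, geom_sum_eq (by norm_num)]
      have h2 : (0 : ℝ) ≤ (1 / 2) ^ (K' - 19 - J₁) := by positivity
      have h3 : ((1 / 2 : ℝ) ^ (K' - 19 - J₁) - 1) / (1 / 2 - 1) ≤ 2 := by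
        rw [div_le_iff_of_neg (by norm_num)]
        linarith
      have h4 : (0 : ℝ) < 2 / k := by positivity
      calc 2 / (k : ℝ) * (((1 / 2 : ℝ) ^ (K' - 19 - J₁) - 1) / (1 / 2 - 1)) ≤ 2 / k * 2 :=
            mul_le_mul_of_nonneg_left h3 h4.le
        _ = 4 / k := by ring
    · rw [Finset.sum_const, Finset.card_range, nsmul_eq_mul]
      apply mul_le_mul_of_nonneg_right _ hβ0
      have h1 : K' - 19 - J₁ ≤ 17 * K₀ := by omega
      exact_mod_cast h1
  have hfin := finite_sum (b_antitone ν) (show J₁ + 20 ≤ K' by omega) hsteps hδ hsum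
  have h1 : b ν K' ≤ b ν K₀ := b_antitone ν (by omega)
  have hlast : G ν ((5 / 4) ^ K₀) ≤ g ν (rr k) := by
    unfold G rr
    apply g_mono
    apply Real.exp_le_exp.mpr
    apply neg_le_neg
    rw [← Real.log_le_log_iff (Real.exp_pos _) (by positivity), Real.log_exp, Real.log_pow]
    nlinarith
  have h2 : b ν J₀ - b ν K₀ = G ν ((5 / 4) ^ J₀) - G ν ((5 / 4) ^ K₀) := b_eq_G _ _
  have hκκ : 1 ≤ Real.log κ := by
    rw [Real.le_log_iff_exp_le (by linarith)]
    have := Real.exp_one_lt_d9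
    linarith
  have h3 : b ν J₁ - b ν K₀ ≤ 17 * (22 / k) := by
    have e : (22 : ℝ) / k = 16 / k + (4 / k + 2 / k) := by ring
    rw [e]
    linarith
  have h4 : 500 * Real.log κ / k = 4 / k + 20 * (3 + Real.log κ) / k + 17 * (22 / k) +
      (480 * Real.log κ - 438) / k := by
    field_simp
    ring
  have h5 : 0 ≤ (480 * Real.log κ - 438) / k := by
    apply div_nonneg _ hk0.le
    linarith
  rw [h4]
  linarith

end Pool.Agent.H237.Sieve
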