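import Mathlib
import Pool.Agent.H237.Primes.Compare

/-!
# A large sieve inequality for measures on the circle
-/

namespace Pool.Agent.H237.Sieve

open MeasureTheory Set Filter Topology Pool.Agent.H237.Primes
open scoped ComplexConjugate

lemma volume_eq_haar : (volume : Measure UnitAddCircle) = AddCircle.haarAddCircle := by
  have := AddCircle.volume_eq_smul_haarAddCircle (T := 1)
  rw [this]
  simp

/-- Bessel's inequality. -/
lemma bessel {h : UnitAddCircle → ℂ} (hh : MemLp h 2 (volume : Measure UnitAddCircle))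
    (A : Finset ℤ) :
    ∑ p ∈ A, ‖∫ s, h s * fourier (-p) s‖ ^ 2 ≤ ∫ s, ‖h s‖ ^ 2 := by
  rw [volume_eq_haar] at hh ⊢
  have h1 := (orthonormal_fourier (T := 1)).sum_inner_products_le (s := A) (x := hh.toLp h)
  have e1 : ∀ p : ℤ, inner ℂ (fourierLp (T := 1) 2 p) (hh.toLp h) =
      ∫ s, h s * fourier (-p) s ∂AddCircle.haarAddCircle := by
    intro p
    rw [L2.inner_def]
    apply integral_congr_ae
    filter_upwards [coeFn_fourierLp (T := 1) 2 p, hh.coeFn_toLp] with s hs1 hs2
    rw [hs1, hs2, RCLike.inner_apply, fourier_neg]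
  simp_rw [e1] at h1
  refine le_trans h1 (le_of_eq ?_)
  rw [← inner_self_eq_norm_sq (𝕜 := ℂ), L2.inner_def]
  have e2 : ∫ s, inner ℂ (hh.toLp h s) (hh.toLp h s) ∂AddCircle.haarAddCircle =
      ∫ s, (((‖h s‖ ^ 2 : ℝ)) : ℂ) ∂AddCircle.haarAddCircle := by
    apply integral_congr_ae
    filter_upwards [hh.coeFn_toLp] with s hs
    rw [hs, inner_self_eq_norm_sq_to_K]
    push_cast
    rfl
  rw [e2, integral_complex_ofReal]
  rfl

/-- The indicator function of a closed ball about `0`. -/
noncomputable def I (ρ : ℝ) : UnitAddCircle → ℝ := (Metric.closedBall 0 ρ).indicator fun _ => 1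

lemma measurable_I (ρ : ℝ) : Measurable (I ρ) :=
  measurable_const.indicator measurableSet_closedBall

lemma I_nonneg (ρ : ℝ) (u : UnitAddCircle) : 0 ≤ I ρ u :=
  Set.indicator_nonneg (fun _ _ => zero_le_one) _

lemma I_le (ρ : ℝ) (u : UnitAddCircle) : I ρ u ≤ 1 := by
  unfold I
  exact Set.indicator_le_self' (fun _ _ => zero_le_one) _

lemma integral_I {ρ : ℝ} (hρ : 0 ≤ ρ) (hρ' : ρ ≤ 1 / 2) : ∫ u, I ρ u = 2 * ρ := by
  unfold I
  rw [integral_indicator_const _ measurableSet_closedBall, Measure.real,
    AddCircle.volume_closedBall, min_eq_right (by linarith), ENNReal.toReal_ofReal (by linarith)]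
  simp

/-- The mass of the closed ball about `s`. -/
noncomputable def h (μ : Measure UnitAddCircle) (ρ : ℝ) (s : UnitAddCircle) : ℝ :=
  ∫ x, I ρ (x - s) ∂μ

section

variable (μ : Measure UnitAddCircle) [IsProbabilityMeasure μ]

lemma integrable_bdd {α : Type*} [MeasurableSpace α] (ν : Measure α) [IsFiniteMeasure ν]
    {E : Type*} [NormedAddCommGroup E] [MeasurableSpace E] [BorelSpace E]
    [SecondCountableTopology E] {f : α → E} (hf : Measurable f) {C : ℝ} (hC : ∀ x, ‖f x‖ ≤ C) :
    Integrable f ν :=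
  Integrable.of_bound hf.aestronglyMeasurable C (Eventually.of_forall hC)

omit [IsProbabilityMeasure μ] in
lemma h_nonneg (ρ : ℝ) (s : UnitAddCircle) : 0 ≤ h μ ρ s := integral_nonneg fun _ => I_nonneg _ _

lemma h_le (ρ : ℝ) (s : UnitAddCircle) : h μ ρ s ≤ 1 := by
  unfold h
  calc ∫ x, I ρ (x - s) ∂μ ≤ ∫ _x, (1 : ℝ) ∂μ := by
        apply integral_mono _ (integrable_const _)
        · intro x; exact I_le _ _
        · apply integrable_bdd μ (C := 1)
          · exact (measurable_I ρ).comp (measurable_id.sub_const s)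
          · intro x
            rw [Real.norm_of_nonneg (I_nonneg _ _)]
            exact I_le _ _
    _ = 1 := by simp

lemma measurable_h (ρ : ℝ) : Measurable (h μ ρ) := by
  unfold h
  have : Measurable fun z : UnitAddCircle × UnitAddCircle => I ρ (z.2 - z.1) :=
    (measurable_I ρ).comp (measurable_snd.sub measurable_fst)
  exact (this.stronglyMeasurable.integral_prod_right').measurable

lemma coeff_h (ρ : ℝ) (p : ℤ) :
    ∫ s, (h μ ρ s : ℂ) * fourier p s =
      (∫ x, (fourier p x : ℂ) ∂μ) * ∫ u, (I ρ u : ℂ) * fourier p u := by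
  have e1 : ∀ s, (h μ ρ s : ℂ) * fourier p s = ∫ x, (I ρ (x - s) : ℂ) * fourier p s ∂μ := by
    intro s
    unfold h
    rw [integral_mul_const, integral_complex_ofReal]
  simp_rw [e1]
  rw [integral_integral_swap]
  · rw [← integral_mul_const]
    apply integral_congr_ae
    filter_upwards with x
    have e2 : ∫ s, (I ρ (x - s) : ℂ) * fourier p s = ∫ u, (I ρ (x - (x + u)) : ℂ) * fourier p (x + u) :=
      (integral_add_left_eq_self (fun s => (I ρ (x - s) : ℂ) * fourier p s) x).symm
    rw [e2, ← integral_const_mul]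
    apply integral_congr_ae
    filter_upwards with u
    have e3 : I ρ (x - (x + u)) = I ρ u := by
      have : x - (x + u) = -u := by abel
      rw [this]
      unfold I
      by_cases hu : u ∈ Metric.closedBall (0 : UnitAddCircle) ρ
      · rw [Set.indicator_of_mem hu, Set.indicator_of_mem (by simpa using hu)]
      · rw [Set.indicator_of_notMem hu, Set.indicator_of_notMem (by simpa using hu)]
    rw [e3]
    have e4 : (fourier p (x + u) : ℂ) = fourier p x * fourier p u := by
      rw [fourier_apply, fourier_apply, fourier_apply, smul_add, AddCircle.toCircle_add,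
        Circle.coe_mul]
    rw [e4]
    ring
  · apply integrable_bdd (volume.prod μ) (C := 1)
    · apply Measurable.mul
      · exact Complex.measurable_ofReal.comp ((measurable_I ρ).comp
          (measurable_snd.sub measurable_fst))
      · exact (fourier p).continuous.measurable.comp measurable_fst
    · intro z
      change ‖(I ρ (z.2 - z.1) : ℂ) * fourier p z.1‖ ≤ 1
      rw [norm_mul, norm_fourier_one, mul_one, Complex.norm_real, Real.norm_of_nonneg (I_nonneg _ _)]
      exact I_le _ _

/-- The mean square of the mass of the balls. -/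
lemma sq_h {ρ : ℝ} (hρ : 0 ≤ ρ) (hρ' : ρ ≤ 1 / 2) :
    ∫ s, h μ ρ s ^ 2 ≤ 2 * ρ * (μ.prod μ).real {z | ‖z.1 - z.2‖ ≤ 2 * ρ} := by
  have hcl : MeasurableSet {z : UnitAddCircle × UnitAddCircle | ‖z.1 - z.2‖ ≤ 2 * ρ} :=
    (isClosed_le (by fun_prop) continuous_const).measurableSet
  have m1 : Measurable fun w : UnitAddCircle × UnitAddCircle × UnitAddCircle =>
      I ρ (w.2.1 - w.1) * I ρ (w.2.2 - w.1) :=
    ((measurable_I ρ).comp (by fun_prop)).mul ((measurable_I ρ).comp (by fun_prop))
  have b1 : ∀ w : UnitAddCircle × UnitAddCircle × UnitAddCircle,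
      ‖I ρ (w.2.1 - w.1) * I ρ (w.2.2 - w.1)‖ ≤ 1 := by
    intro w
    rw [Real.norm_of_nonneg (mul_nonneg (I_nonneg _ _) (I_nonneg _ _))]
    exact mul_le_one₀ (I_le _ _) (I_nonneg _ _) (I_le _ _)
  have e1 : ∀ s, h μ ρ s ^ 2 = ∫ z, I ρ (z.1 - s) * I ρ (z.2 - s) ∂(μ.prod μ) := by
    intro s
    rw [integral_prod_mul (fun x => I ρ (x - s)) (fun x => I ρ (x - s)), sq]
    rfl
  simp_rw [e1]
  rw [integral_integral_swap (integrable_bdd (volume.prod (μ.prod μ)) m1 b1)]
  calc ∫ z : UnitAddCircle × UnitAddCircle, (∫ s : UnitAddCircle, I ρ (z.1 - s) * I ρ (z.2 - s))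
          ∂(μ.prod μ) ≤
        ∫ z, {z : UnitAddCircle × UnitAddCircle | ‖z.1 - z.2‖ ≤ 2 * ρ}.indicator
          (fun _ => 2 * ρ) z ∂(μ.prod μ) := by
        apply integral_mono_of_nonneg
        · filter_upwards with z
          exact integral_nonneg fun s => mul_nonneg (I_nonneg _ _) (I_nonneg _ _)
        · exact (integrable_const _).indicator hcl
        · filter_upwards with z
          by_cases hz : z ∈ {z : UnitAddCircle × UnitAddCircle | ‖z.1 - z.2‖ ≤ 2 * ρ}
          · rw [Set.indicator_of_mem hz]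
            have e2 : ∫ s, I ρ (z.1 - s) = 2 * ρ := by
              rw [integral_sub_left_eq_self (I ρ) volume z.1]
              exact integral_I hρ hρ'
            rw [← e2]
            apply integral_mono
            · apply integrable_bdd volume (C := 1)
              · exact ((measurable_I ρ).comp (by fun_prop)).mul ((measurable_I ρ).comp (by fun_prop))
              · intro s; exact b1 (s, z.1, z.2)
            · apply integrable_bdd volume (C := 1)
              · exact (measurable_I ρ).comp (by fun_prop)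
              · intro s
                rw [Real.norm_of_nonneg (I_nonneg _ _)]
                exact I_le _ _
            · intro s
              exact mul_le_of_le_one_right (I_nonneg _ _) (I_le _ _)
          · rw [Set.indicator_of_notMem hz]
            apply le_of_eq
            rw [integral_eq_zero_of_ae]
            filter_upwards with s
            by_contra hne
            apply hz
            have h1 : I ρ (z.1 - s) ≠ 0 := fun h0 => hne (by simp [h0])
            have h2 : I ρ (z.2 - s) ≠ 0 := fun h0 => hne (by simp [h0])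
            have h3 : z.1 - s ∈ Metric.closedBall (0 : UnitAddCircle) ρ := by
              by_contra hn
              exact h1 (Set.indicator_of_notMem hn _)
            have h4 : z.2 - s ∈ Metric.closedBall (0 : UnitAddCircle) ρ := by
              by_contra hn
              exact h2 (Set.indicator_of_notMem hn _)
            rw [mem_closedBall_zero_iff] at h3 h4
            change ‖z.1 - z.2‖ ≤ 2 * ρ
            have h5 : z.1 - z.2 = (z.1 - s) - (z.2 - s) := by abel
            rw [h5]
            refine le_trans (norm_sub_le _ _) ?_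
            linarith
    _ = _ := by
        rw [integral_indicator_const _ hcl, smul_eq_mul]
        ring

/-- **The large sieve for measures.** -/
theorem sieve {y : ℕ} (hy : 1 ≤ y) (A : Finset ℕ) (hA : ∀ p ∈ A, p ≤ y) {c : ℝ}
    (hc : ∀ p ∈ A, c ≤ ‖∫ x, (fourier (p : ℤ) x : ℂ) ∂μ‖) (hc0 : 0 ≤ c) :
    (A.card : ℝ) * c ^ 2 ≤ 16 * y * (μ.prod μ).real {z | ‖z.1 - z.2‖ < 1 / (2 * y)} := by
  have hyR : (1 : ℝ) ≤ y := by exact_mod_cast hy
  set ρ : ℝ := 1 / (8 * y) with hρdef
  have hρ0 : 0 < ρ := by positivity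
  have hρ1 : ρ ≤ 1 / 8 := by
    rw [hρdef]
    apply one_div_le_one_div_of_le (by norm_num)
    linarith
  have hmem : MemLp (fun s => (h μ ρ s : ℂ)) 2 (volume : Measure UnitAddCircle) := by
    apply MemLp.of_bound (Complex.measurable_ofReal.comp (measurable_h μ ρ)).aestronglyMeasurable 1
    filter_upwards with s
    change ‖((h μ ρ s : ℝ) : ℂ)‖ ≤ 1
    rw [Complex.norm_real, Real.norm_of_nonneg (h_nonneg μ ρ s)]
    exact h_le μ ρ s
  have hB := bessel hmem (A.image fun p : ℕ => (-(p : ℤ)))
  rw [Finset.sum_image (by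
    intro p _ q _ hpq
    simpa using hpq)] at hB
  simp only [neg_neg] at hB
  have hD : ∀ p ∈ A, ρ ≤ ‖∫ u, (I ρ u : ℂ) * fourier (p : ℤ) u‖ := by
    intro p hp
    have hpR : (p : ℝ) ≤ y := by exact_mod_cast hA p hp
    have m2 : Measurable fun u : UnitAddCircle => (I ρ u : ℂ) * fourier (p : ℤ) u :=
      (Complex.measurable_ofReal.comp (measurable_I ρ)).mul (fourier (p : ℤ)).continuous.measurable
    have i2 : Integrable (fun u : UnitAddCircle => (I ρ u : ℂ) * fourier (p : ℤ) u) volume := by
      apply integrable_bdd volume m2 (C := 1)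
      intro u
      rw [norm_mul, norm_fourier_one, mul_one, Complex.norm_real, Real.norm_of_nonneg (I_nonneg _ _)]
      exact I_le _ _
    have h1 : (∫ u, (I ρ u : ℂ) * fourier (p : ℤ) u).re = ∫ u, ((I ρ u : ℂ) * fourier (p : ℤ) u).re :=
      (Complex.reCLM.integral_comp_comm i2).symm
    have h2 : ρ ≤ ∫ u, ((I ρ u : ℂ) * fourier (p : ℤ) u).re := by
      have h3 : ∫ u, (1 / 2 : ℝ) * I ρ u = ρ := by
        rw [integral_const_mul, integral_I hρ0.le (by linarith)]
        ring
      refine le_trans (le_of_eq h3.symm) ?_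
      apply integral_mono
      · apply integrable_bdd volume ((measurable_I ρ).const_mul _) (C := 1 / 2)
        intro u
        rw [Real.norm_of_nonneg (mul_nonneg (by norm_num) (I_nonneg _ _))]
        have := I_le ρ u
        linarith
      · exact i2.re
      · intro u
        change 1 / 2 * I ρ u ≤ ((I ρ u : ℂ) * fourier (p : ℤ) u).re
        rw [Complex.re_ofReal_mul, mul_comm]
        by_cases hu : u ∈ Metric.closedBall (0 : UnitAddCircle) ρ
        · apply mul_le_mul_of_nonneg_left _ (I_nonneg _ _)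
          rw [mem_closedBall_zero_iff] at hu
          have h4 := norm_fourier_sub_one p u
          have h5 : ‖(fourier (p : ℤ) u : ℂ) - 1‖ ≤ 1 := by
            refine le_trans h4 ?_
            have hpi := Real.pi_le_four
            have hpi0 := Real.pi_pos
            calc 2 * Real.pi * p * ‖u‖ ≤ 2 * 4 * y * ρ := by gcongr
              _ = 1 := by rw [hρdef]; field_simp; norm_num
          have h6 : Complex.normSq ((fourier (p : ℤ) u : ℂ) - 1) =
              2 - 2 * (fourier (p : ℤ) u : ℂ).re := by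
            rw [Complex.normSq_sub]
            rw [Complex.normSq_eq_norm_sq, norm_fourier_one]
            simp
            ring
          have h7 : Complex.normSq ((fourier (p : ℤ) u : ℂ) - 1) ≤ 1 := by
            rw [Complex.normSq_eq_norm_sq]
            nlinarith [norm_nonneg ((fourier (p : ℤ) u : ℂ) - 1)]
          linarith
        · unfold I
          rw [Set.indicator_of_notMem hu]
          simp
    rw [← h1] at h2
    exact le_trans h2 (le_trans (le_abs_self _) (Complex.abs_re_le_norm _))
  have h3 : ∑ p ∈ A, (c * ρ) ^ 2 ≤ ∑ p ∈ A, ‖∫ s, (h μ ρ s : ℂ) * fourier (p : ℤ) s‖ ^ 2 := by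
    apply Finset.sum_le_sum
    intro p hp
    rw [coeff_h, norm_mul]
    apply pow_le_pow_left₀ (by positivity)
    exact mul_le_mul (hc p hp) (hD p hp) hρ0.le (norm_nonneg _)
  rw [Finset.sum_const, nsmul_eq_mul] at h3
  have h4 : ∫ s, ‖((h μ ρ s : ℝ) : ℂ)‖ ^ 2 = ∫ s, h μ ρ s ^ 2 := by
    congr 1
    ext s
    rw [Complex.norm_real, Real.norm_eq_abs, sq_abs]
  rw [h4] at hB
  have h5 := sq_h μ hρ0.le (show ρ ≤ 1 / 2 by linarith)
  have h6 : (μ.prod μ).real {z | ‖z.1 - z.2‖ ≤ 2 * ρ} ≤
      (μ.prod μ).real {z | ‖z.1 - z.2‖ < 1 / (2 * y)} := by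
    apply measureReal_mono _ (measure_ne_top _ _)
    intro z hz
    have hz' : ‖z.1 - z.2‖ ≤ 2 * ρ := hz
    change ‖z.1 - z.2‖ < 1 / (2 * y)
    have : 2 * ρ < 1 / (2 * y) := by
      have e : 1 / (2 * (y : ℝ)) = 4 * ρ := by rw [hρdef]; field_simp; norm_num
      rw [e]
      linarith
    linarith
  have h7 : (A.card : ℝ) * (c * ρ) ^ 2 ≤
      2 * ρ * (μ.prod μ).real {z | ‖z.1 - z.2‖ < 1 / (2 * y)} := by
    refine le_trans h3 (le_trans hB (le_trans h5 ?_))
    exact mul_le_mul_of_nonneg_left h6 (by positivity)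
  have h8 : ρ ^ 2 * ((A.card : ℝ) * c ^ 2) ≤
      ρ ^ 2 * (16 * y * (μ.prod μ).real {z | ‖z.1 - z.2‖ < 1 / (2 * y)}) := by
    have e : ρ ^ 2 * (16 * y) = 2 * ρ := by rw [hρdef]; field_simp; norm_num
    calc ρ ^ 2 * ((A.card : ℝ) * c ^ 2) = (A.card : ℝ) * (c * ρ) ^ 2 := by ring
      _ ≤ 2 * ρ * (μ.prod μ).real {z | ‖z.1 - z.2‖ < 1 / (2 * y)} := h7
      _ = _ := by rw [← e]; ring
  exact le_of_mul_le_mul_left h8 (by positivity)

end

end Pool.Agent.H237.Sieve
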