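import Mathlib
import Pool.Agent.H237.Sieve.Bessel
import Pool.Agent.H237.Sieve.Pack
import Pool.Agent.H237.Primes.Final
import Pool.Agent.H237.Gap.Finite

/-!
# The coefficients, and the subgroups of `(ℤ / N)ˣ`
-/

namespace Pool.Agent.H237.Sieve

open MeasureTheory Set Filter Topology Pool.Agent.H237.Primes Pool.Agent.H237.Gap ENNReal

/-- The law of the difference of two independent points. -/
noncomputable def dl (ν : Measure UnitAddCircle) : Measure UnitAddCircle :=
  (ν.prod ν).map fun z : UnitAddCircle × UnitAddCircle => z.1 - z.2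

lemma measurable_df : Measurable fun z : UnitAddCircle × UnitAddCircle => z.1 - z.2 := by
  apply Continuous.measurable
  fun_prop

lemma dl_prob (ν : Measure UnitAddCircle) [IsProbabilityMeasure ν] : IsProbabilityMeasure (dl ν) :=
  Measure.isProbabilityMeasure_map measurable_df.aemeasurable

lemma dl_inv (ν : Measure UnitAddCircle) [IsProbabilityMeasure ν] {p : ℕ} (h : Inv ν p) :
    Inv (dl ν) p := by
  have h2 := prod_inv2 h h
  refine ⟨by fun_prop, ?_⟩
  unfold dl
  rw [Measure.map_map (by fun_prop) measurable_df]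
  have h1 : ((fun x : UnitAddCircle => p • x) ∘
      fun z : UnitAddCircle × UnitAddCircle => z.1 - z.2) =
      (fun z : UnitAddCircle × UnitAddCircle => z.1 - z.2) ∘
        fun z : UnitAddCircle × UnitAddCircle => (p • z.1, p • z.2) := by
    ext z
    simp only [Function.comp_apply, smul_sub]
  rw [h1, ← Measure.map_map measurable_df h2.measurable, h2.map_eq]

lemma dl_g (ν : Measure UnitAddCircle) [IsProbabilityMeasure ν] (r : ℝ) :
    g (dl ν) r = (ν.prod ν).real {z | ‖z.1 - z.2‖ < r} := by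
  unfold g dl
  rw [map_measureReal_apply measurable_df (isOpen_lt continuous_norm continuous_const).measurableSet]
  rfl

/-- The bound for the first coefficient. -/
lemma first {A : Finset ℕ} {y : ℕ} (hA : Dns A y) (hg : Goodk A.card) (ν : Measure UnitAddCircle)
    [IsProbabilityMeasure ν] (hinv : ∀ p ∈ A, Inv ν p) :
    ‖∫ x, (fourier 1 x : ℂ) ∂ν‖ ^ 2 ≤ 16 * (y / A.card) *
      (500 * Real.log (Real.log A.card) / A.card +
        (ν.prod ν).real {z | ‖z.1 - z.2‖ < rr A.card}) := by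
  have hk0 : (0 : ℝ) < A.card := lt_of_lt_of_le (Real.exp_pos _) hA.big
  have hky : (A.card : ℝ) ≤ y := by exact_mod_cast hA.card_le
  have hy : 1 ≤ y := by
    have : (0 : ℝ) < y := by linarith
    exact_mod_cast this
  have hprob := dl_prob ν
  have h1 := pack_A hA hg (ν := dl ν) (fun p hp => dl_inv ν (hinv p hp))
  rw [dl_g, dl_g] at h1
  have h2 := sieve ν hy A hA.le (c := ‖∫ x, (fourier 1 x : ℂ) ∂ν‖) (by
    intro p hp
    have h3 := integral_fourier_inv (hinv p hp) 1
    rw [mul_one] at h3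
    exact (congrArg norm h3).symm.le) (norm_nonneg _)
  have hy0 : (0 : ℝ) ≤ 16 * y := by positivity
  have h3 : (A.card : ℝ) * ‖∫ x, (fourier 1 x : ℂ) ∂ν‖ ^ 2 ≤ 16 * y *
      (500 * Real.log (Real.log A.card) / A.card +
        (ν.prod ν).real {z | ‖z.1 - z.2‖ < rr A.card}) := by
    refine le_trans h2 (mul_le_mul_of_nonneg_left ?_ hy0)
    linarith
  have h4 : 16 * ((y : ℝ) / A.card) *
      (500 * Real.log (Real.log A.card) / A.card +
        (ν.prod ν).real {z | ‖z.1 - z.2‖ < rr A.card}) = (16 * y *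
      (500 * Real.log (Real.log A.card) / A.card +
        (ν.prod ν).real {z | ‖z.1 - z.2‖ < rr A.card})) / A.card := by ring
  rw [h4, le_div_iff₀ hk0]
  linarith

/-- All coefficients. -/
lemma coeff {A : Finset ℕ} {y : ℕ} (hA : Dns A y) (hg : Goodk A.card) (μ : Measure UnitAddCircle)
    [IsProbabilityMeasure μ] (hinv : ∀ p ∈ A, Inv μ p) (n : ℤ) :
    ‖∫ x, (fourier n x : ℂ) ∂μ‖ ^ 2 ≤ 16 * (y / A.card) *
      (500 * Real.log (Real.log A.card) / A.card +
        (μ.prod μ).real {z | ‖n • z.1 - n • z.2‖ < rr A.card}) := by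
  have hn : Measurable fun x : UnitAddCircle => n • x := by fun_prop
  have hprob : IsProbabilityMeasure (μ.map fun x : UnitAddCircle => n • x) :=
    Measure.isProbabilityMeasure_map hn.aemeasurable
  have h1 := first hA hg (μ.map fun x : UnitAddCircle => n • x)
    (fun p hp => map_inv' (hinv p hp) n)
  have hc : Continuous fun x : UnitAddCircle => (fourier 1 x : ℂ) := by fun_prop
  rw [integral_map hn.aemeasurable hc.aestronglyMeasurable] at h1
  have e1 : ∀ x : UnitAddCircle, (fourier 1 (n • x) : ℂ) = fourier n x := by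
    intro x
    rw [fourier_apply, fourier_apply, one_smul]
  simp_rw [e1] at h1
  have e2 : ((μ.map fun x : UnitAddCircle => n • x).prod (μ.map fun x : UnitAddCircle => n • x)).real
      {z | ‖z.1 - z.2‖ < rr A.card} =
      (μ.prod μ).real {z | ‖n • z.1 - n • z.2‖ < rr A.card} := by
    rw [Measure.map_prod_map _ _ hn hn, map_measureReal_apply (hn.prodMap hn)]
    · rfl
    · apply IsOpen.measurableSet
      exact isOpen_lt (by fun_prop) continuous_const
  rw [e2] at h1
  exact h1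

/-- `E = 1 + log (1 + log k)`. -/
noncomputable def EE (k : ℕ) : ℝ := 1 + Real.log (1 + Real.log k)

lemma one_le_EE (k : ℕ) : 1 ≤ EE k := by
  unfold EE
  have h1 : 0 ≤ Real.log (k : ℝ) := Real.log_natCast_nonneg k
  have h2 : 0 ≤ Real.log (1 + Real.log k) := Real.log_nonneg (by linarith)
  linarith

/-- The general bound for the coefficients. -/
lemma coeff_all : ∃ C : ℝ, 1 ≤ C ∧ ∀ (y : ℕ) (A : Finset ℕ), A.Nonempty →
    (∀ p ∈ A, 2 ≤ p ∧ p ≤ y) → (A : Set ℕ).Pairwise Nat.Coprime →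
    ∀ μ : Measure UnitAddCircle, IsProbabilityMeasure μ → (∀ p ∈ A, Inv μ p) → ∀ n : ℤ,
    ‖∫ x, (fourier n x : ℂ) ∂μ‖ ^ 2 ≤ C * (y / A.card) * (EE A.card / A.card +
        (μ.prod μ).real {z | ‖n • z.1 - n • z.2‖ < rr A.card}) := by
  obtain ⟨k₀, hk₀⟩ := eventually_atTop.mp eventually_goodk
  refine ⟨8000 + k₀, by have : (0 : ℝ) ≤ k₀ := Nat.cast_nonneg _; linarith, ?_⟩
  intro y A hne hle hco μ hμ hinv n
  set k := A.card with hk
  have hk1 : 1 ≤ k := Finset.card_pos.mpr hne
  have hk1R : (1 : ℝ) ≤ k := by exact_mod_cast hk1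
  have hk0 : (0 : ℝ) < k := by linarith
  have hky : (k : ℝ) ≤ y := by
    have : A.card ≤ y := by
      calc A.card ≤ (Finset.Icc 1 y).card := by
            apply Finset.card_le_card
            intro p hp
            rw [Finset.mem_Icc]
            exact ⟨by have := (hle p hp).1; omega, (hle p hp).2⟩
        _ = y := by simp
    exact_mod_cast this
  have hk₀0 : (0 : ℝ) ≤ k₀ := Nat.cast_nonneg _
  have hE := one_le_EE k
  have hm : 0 ≤ (μ.prod μ).real {z | ‖n • z.1 - n • z.2‖ < rr k} := measureReal_nonneg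
  have hyk0 : (0 : ℝ) < y / k := by
    apply div_pos _ hk0
    linarith
  have hc1 : ‖∫ x, (fourier n x : ℂ) ∂μ‖ ^ 2 ≤ 1 := by
    have h1 : ‖∫ x, (fourier n x : ℂ) ∂μ‖ ≤ 1 := by
      calc ‖∫ x, (fourier n x : ℂ) ∂μ‖ ≤ ∫ x, ‖(fourier n x : ℂ)‖ ∂μ :=
            norm_integral_le_integral_norm _
        _ = 1 := by simp only [norm_fourier_one]; simp
    nlinarith [norm_nonneg (∫ x, (fourier n x : ℂ) ∂μ)]
  -- the trivial cases
  have htriv : 1 ≤ (8000 + k₀) * ((y : ℝ) / k) * (1 / k) →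
      ‖∫ x, (fourier n x : ℂ) ∂μ‖ ^ 2 ≤ (8000 + k₀) * ((y : ℝ) / k) * (EE k / k +
        (μ.prod μ).real {z | ‖n • z.1 - n • z.2‖ < rr k}) := by
    intro h
    refine le_trans hc1 (le_trans h ?_)
    apply mul_le_mul_of_nonneg_left _ (by positivity)
    have : 1 / (k : ℝ) ≤ EE k / k := div_le_div_of_nonneg_right hE hk0.le
    linarith
  rcases lt_or_ge k k₀ with hkk | hkk
  · apply htriv
    have h1 : (k : ℝ) ≤ k₀ := by exact_mod_cast hkk.le
    have h2 : 1 ≤ (y : ℝ) / k := by rwa [le_div_iff₀ hk0, one_mul]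
    calc (1 : ℝ) = k * 1 * (1 / k) := by field_simp
      _ ≤ (8000 + k₀) * ((y : ℝ) / k) * (1 / k) := by
          apply mul_le_mul_of_nonneg_right _ (by positivity)
          apply mul_le_mul _ h2 (by norm_num) (by positivity)
          linarith
  rcases lt_or_ge ((k : ℝ) ^ 2) y with hky2 | hky2
  · apply htriv
    have h1 : (k : ℝ) ≤ y / k := by
      rw [le_div_iff₀ hk0]
      nlinarith
    calc (1 : ℝ) = 1 * k * (1 / k) := by field_simp
      _ ≤ (8000 + k₀) * ((y : ℝ) / k) * (1 / k) := by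
          apply mul_le_mul_of_nonneg_right _ (by positivity)
          apply mul_le_mul _ h1 hk0.le (by positivity)
          linarith
  · have hg := hk₀ k hkk
    have hD : Dns A y := ⟨fun p hp => (hle p hp).1, fun p hp => (hle p hp).2, hco, hky2, hg.big⟩
    have h1 := coeff hD hg μ hinv n
    refine le_trans h1 ?_
    have hlog : Real.log (Real.log k) ≤ EE k := by
      unfold EE
      have h2 : 0 < Real.log (k : ℝ) := by
        have := Real.log_le_log (Real.exp_pos 20) hg.big
        rw [Real.log_exp] at this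
        linarith
      have h3 : Real.log (Real.log k) ≤ Real.log (1 + Real.log k) :=
        Real.log_le_log h2 (by linarith)
      linarith
    have h2 : 500 * Real.log (Real.log k) / k ≤ 500 * (EE k / k) := by
      rw [← mul_div_assoc]
      apply div_le_div_of_nonneg_right _ hk0.le
      linarith
    have h3 : 0 ≤ EE k / (k : ℝ) := by positivity
    calc 16 * ((y : ℝ) / k) * (500 * Real.log (Real.log k) / k +
          (μ.prod μ).real {z | ‖n • z.1 - n • z.2‖ < rr k}) ≤
          16 * ((y : ℝ) / k) * (500 * (EE k / k +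
          (μ.prod μ).real {z | ‖n • z.1 - n • z.2‖ < rr k})) := by
          apply mul_le_mul_of_nonneg_left _ (by positivity)
          linarith
      _ = 8000 * ((y : ℝ) / k) * (EE k / k +
          (μ.prod μ).real {z | ‖n • z.1 - n • z.2‖ < rr k}) := by ring
      _ ≤ _ := by
          apply mul_le_mul_of_nonneg_right _ (by linarith)
          apply mul_le_mul_of_nonneg_right _ hyk0.le
          linarith

section Subgroup

variable {N : ℕ} [NeZero N] (H : Subgroup (ZMod N)ˣ) [Fintype H]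

omit [NeZero N] in
/-- The orbits have at least `k` points. -/
lemma fiber_card {A : Finset ℕ} {y : ℕ} (hAy : ∀ p ∈ A, p ≤ y)
    (hH : ∀ p ∈ A, ∃ h ∈ H, ((h : (ZMod N)ˣ) : ZMod N) = p) {a : ZMod N}
    (ha : ∀ m : ℕ, 1 ≤ m → m ≤ y → (m : ZMod N) * a ≠ 0) (h : H) :
    A.card * (Finset.univ.filter fun h' : H =>
      a * ((h' : (ZMod N)ˣ) : ZMod N) = a * ((h : (ZMod N)ˣ) : ZMod N)).card ≤ Fintype.card H := by
  classical
  have hH' : ∀ p ∈ A, ∃ u : H, ((u : (ZMod N)ˣ) : ZMod N) = p := by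
    intro p hp
    obtain ⟨u, hu, hu2⟩ := hH p hp
    exact ⟨⟨u, hu⟩, hu2⟩
  choose! U hU using hH'
  rw [← Finset.card_product, ← Finset.card_univ (α := H)]
  apply Finset.card_le_card_of_injOn (fun z : ℕ × H => U z.1 * z.2) (fun _ _ => Finset.mem_univ _)
  -- cancellation
  have hcan : ∀ p q : ℕ, p ∈ A → q ∈ A → (p : ZMod N) * (a * ((h : (ZMod N)ˣ) : ZMod N)) =
      (q : ZMod N) * (a * ((h : (ZMod N)ˣ) : ZMod N)) → p ≤ q → p = q := by
    intro p q hp hq hpq hle
    by_contra hne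
    apply ha (q - p) (by omega) (by have := hAy q hq; omega)
    have h1 : ((q - p : ℕ) : ZMod N) = (q : ZMod N) - p := by
      rw [Nat.cast_sub hle]
    rw [h1]
    have h2 : ((q : ZMod N) - p) * a * ((h : (ZMod N)ˣ) : ZMod N) = 0 := by
      rw [sub_mul, sub_mul, mul_assoc, mul_assoc, hpq, sub_self]
    have h3 := congrArg (fun z => z * (((h : (ZMod N)ˣ)⁻¹ : (ZMod N)ˣ) : ZMod N)) h2
    simpa [mul_assoc] using h3
  rintro ⟨p, u⟩ hz ⟨q, v⟩ hw hzw
  rw [Finset.mem_coe, Finset.mem_product, Finset.mem_filter] at hz hw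
  obtain ⟨hp, -, hu⟩ := hz
  obtain ⟨hq, -, hv⟩ := hw
  simp only at hp hq hu hv hzw
  have h1 : ((U p : (ZMod N)ˣ) : ZMod N) * ((u : (ZMod N)ˣ) : ZMod N) =
      ((U q : (ZMod N)ˣ) : ZMod N) * ((v : (ZMod N)ˣ) : ZMod N) := by
    have := congrArg (fun w : H => ((w : (ZMod N)ˣ) : ZMod N)) hzw
    simpa using this
  rw [hU p hp, hU q hq] at h1
  have h2 : (p : ZMod N) * (a * ((h : (ZMod N)ˣ) : ZMod N)) =
      (q : ZMod N) * (a * ((h : (ZMod N)ˣ) : ZMod N)) := by
    calc (p : ZMod N) * (a * ((h : (ZMod N)ˣ) : ZMod N)) =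
          (p : ZMod N) * (a * ((u : (ZMod N)ˣ) : ZMod N)) := by rw [hu]
      _ = a * ((p : ZMod N) * ((u : (ZMod N)ˣ) : ZMod N)) := by ring
      _ = a * ((q : ZMod N) * ((v : (ZMod N)ˣ) : ZMod N)) := by rw [h1]
      _ = (q : ZMod N) * (a * ((v : (ZMod N)ˣ) : ZMod N)) := by ring
      _ = (q : ZMod N) * (a * ((h : (ZMod N)ˣ) : ZMod N)) := by rw [hv]
  have h3 : p = q := by
    rcases le_total p q with hle | hle
    · exact hcan p q hp hq h2 hle
    · exact (hcan q p hq hp h2.symm hle).symm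
  subst h3
  have h4 : u = v := mul_left_cancel hzw
  rw [h4]

lemma avg_prod_le {A : Finset ℕ} {y : ℕ} (hA0 : A.Nonempty) (hAy : ∀ p ∈ A, p ≤ y)
    (hH : ∀ p ∈ A, ∃ h ∈ H, ((h : (ZMod N)ˣ) : ZMod N) = p) {a : ZMod N}
    (ha : ∀ m : ℕ, 1 ≤ m → m ≤ y → (m : ZMod N) * a ≠ 0) {r : ℝ} (hr : r ≤ 1 / N) :
    ((avg fun h : H => ZMod.toAddCircle (a * ((h : (ZMod N)ˣ) : ZMod N))).prod
      (avg fun h : H => ZMod.toAddCircle (a * ((h : (ZMod N)ˣ) : ZMod N)))).real
      {z | ‖z.1 - z.2‖ < r} ≤ 1 / A.card := by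
  classical
  set f : H → UnitAddCircle := fun h => ZMod.toAddCircle (a * ((h : (ZMod N)ˣ) : ZMod N)) with hf
  have hprob := avg_prob f
  have hk0 : 0 < A.card := Finset.card_pos.mpr hA0
  have hms : MeasurableSet {z : UnitAddCircle × UnitAddCircle | ‖z.1 - z.2‖ < r} := by
    apply IsOpen.measurableSet
    exact isOpen_lt (by fun_prop) continuous_const
  have hE : ((avg f).prod (avg f)) {z | ‖z.1 - z.2‖ < r} ≤ ((A.card : ℝ≥0∞))⁻¹ := by
    rw [Measure.prod_apply hms]
    have h1 : ∀ i : H, (avg f) (Prod.mk (f i) ⁻¹' {z | ‖z.1 - z.2‖ < r}) ≤ ((A.card : ℝ≥0∞))⁻¹ := by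
      intro i
      have h2 : (avg f) (Prod.mk (f i) ⁻¹' {z | ‖z.1 - z.2‖ < r}) ≤
          ((Fintype.card H : ℝ≥0∞)⁻¹) * ((Finset.univ.filter fun h' : H =>
            a * ((h' : (ZMod N)ˣ) : ZMod N) = a * ((i : (ZMod N)ˣ) : ZMod N)).card : ℝ≥0∞) := by
        unfold avg
        rw [Measure.smul_apply, Measure.finsetSum_apply, smul_eq_mul]
        apply mul_le_mul_right
        rw [Finset.card_filter]
        push_cast
        apply Finset.sum_le_sum
        intro j _
        rw [Measure.dirac_apply, Set.indicator_apply]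
        split_ifs with hj1 hj2 hj2
        · simp
        · exfalso
          apply hj2
          by_contra hne
          have h5 := norm_toAddCircle (sub_ne_zero.mpr (Ne.symm hne))
          rw [map_sub] at h5
          have h6 : ‖f i - f j‖ < r := hj1
          have h7 : ‖f i - f j‖ < ‖f i - f j‖ := lt_of_lt_of_le h6 (le_trans hr h5)
          exact lt_irrefl _ h7
        · simp
        · simp
      refine le_trans h2 ?_
      have h3 := fiber_card H hAy hH ha i
      have h4 : (Fintype.card H : ℝ≥0∞) ≠ 0 := by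
        simp only [ne_eq, Nat.cast_eq_zero]
        exact Fintype.card_ne_zero
      rw [ENNReal.inv_mul_le_iff h4 (by simp), ← div_eq_mul_inv,
        ENNReal.le_div_iff_mul_le (Or.inl (by exact_mod_cast hk0.ne')) (Or.inl (by simp))]
      rw [Nat.mul_comm] at h3
      exact_mod_cast h3
    have h2 : ∫⁻ x, (avg f) (Prod.mk x ⁻¹' {z | ‖z.1 - z.2‖ < r}) ∂(avg f) =
        ((Fintype.card H : ℝ≥0∞)⁻¹) * ∑ i : H, (avg f) (Prod.mk (f i) ⁻¹' {z | ‖z.1 - z.2‖ < r}) := by
      conv_lhs => rw [show avg f = ((Fintype.card H : ℝ≥0∞)⁻¹) • ∑ i, Measure.dirac (f i) from rfl]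
      rw [lintegral_smul_measure, lintegral_finsetSum_measure, smul_eq_mul]
      congr 1
      apply Finset.sum_congr rfl
      intro i _
      rw [lintegral_dirac]
      rfl
    rw [h2]
    have h4 : (Fintype.card H : ℝ≥0∞) ≠ 0 := by
      simp only [ne_eq, Nat.cast_eq_zero]
      exact Fintype.card_ne_zero
    rw [ENNReal.inv_mul_le_iff h4 (by simp)]
    calc ∑ i : H, (avg f) (Prod.mk (f i) ⁻¹' {z | ‖z.1 - z.2‖ < r}) ≤
          ∑ _i : H, ((A.card : ℝ≥0∞))⁻¹ := Finset.sum_le_sum fun i _ => h1 i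
      _ = _ := by rw [Finset.sum_const, Finset.card_univ, nsmul_eq_mul]
  rw [Measure.real]
  calc (((avg f).prod (avg f)) {z | ‖z.1 - z.2‖ < r}).toReal ≤ (((A.card : ℝ≥0∞))⁻¹).toReal := by
        apply ENNReal.toReal_mono _ hE
        simp [hk0.ne']
    _ = 1 / A.card := by simp

end Subgroup

end Pool.Agent.H237.Sieve
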