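import Mathlib
import Pool.Agent.H237.Sieve.Final

/-!
# Measures invariant under many pairwise coprime multipliers up to `y`

Let `A` be any set of `k` pairwise coprime integers in `[2, y]` (for instance any `k` primes up to
`y`), and let `μ` be any probability measure on the circle invariant under `x ↦ p x` for all `p ∈ A`
(atoms are allowed, no ergodicity, no entropy).  With `X = exp (exp (exp (c k)))` every Fourier
coefficient satisfies

`|μ^(n)| ^ 2 ≤ C (y / k) ((1 + log (1 + log k)) / k + (μ × μ) {‖n (x - x')‖ < 1 / X})`.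

For the measures carried by rational points with denominators at most `X` the last term is
computed exactly, and the sums over a subgroup `H` of `(ℤ / N)ˣ` which contains the classes of the
elements of `A` are `≪ √(y log log k) / k |H|`: a power saving as soon as `k ≥ y ^ (1/2 + δ)`,
and a saving of `y ^ (-1/2 + o(1))` for the primes up to `y`.

Proof.  1. The coefficients of `x ↦ n x` at all `p ∈ A` are equal to `μ^(n)`; by Bessel's
inequality for the convolution of `μ` with a ball of radius `1 / (8 y)` (the dual large sieve)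
`k |μ^(n)| ^ 2 ≤ 16 y (μ × μ) {‖n (x - x')‖ < 1 / (2 y)}`.  2. The law of the difference
`n (x - x')` is invariant under `A` as well; the mass of its annulus `1 / X ≤ ‖·‖ < 1 / (2 y)` is
`≪ (log log k) / k`: near the radius `1 / y` the powers `p ^ l` give `k / 2` disjoint translates
at each scale, there are only `log log k` scales before the packing argument of
`Pool.Agent.H237.Gap`, for products of many powers, takes over.
-/

namespace Pool.Agent.H237.Sieve.Variant

open MeasureTheory Set Filter Topology Pool.Agent.H237 Pool.Agent.H237.Primes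
  Pool.Agent.H237.Sieve

lemma rr_eq (k : ℕ) : rr k = 1 / Real.exp (Real.exp (Real.exp (1 / 1000 * k))) := by
  unfold rr
  exact (Real.exp_neg _).trans (one_div _).symm

lemma sub_all {C₁ : ℝ} (hC₁ : 1 ≤ C₁) (hco : ∀ (y : ℕ) (A : Finset ℕ), A.Nonempty →
    (∀ p ∈ A, 2 ≤ p ∧ p ≤ y) → (A : Set ℕ).Pairwise Nat.Coprime →
    ∀ μ : Measure UnitAddCircle, IsProbabilityMeasure μ → (∀ p ∈ A, Gap.Inv μ p) → ∀ n : ℤ,
    ‖∫ x, (fourier n x : ℂ) ∂μ‖ ^ 2 ≤ C₁ * (y / A.card) * (EE A.card / A.card +
        (μ.prod μ).real {z | ‖n • z.1 - n • z.2‖ < rr A.card}))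
    (y : ℕ) (A : Finset ℕ) (hA0 : A.Nonempty) (hA : ∀ p ∈ A, 2 ≤ p ∧ p ≤ y)
    (hAc : (A : Set ℕ).Pairwise Nat.Coprime) (N : ℕ) [NeZero N] (hN : (N : ℝ) ≤ 1 / rr A.card)
    (H : Subgroup (ZMod N)ˣ) [Fintype H] (hH : ∀ p ∈ A, ∃ h ∈ H, ((h : (ZMod N)ˣ) : ZMod N) = p)
    (a : ZMod N) (ha : ∀ m : ℕ, 1 ≤ m → m ≤ y → (m : ZMod N) * a ≠ 0) :
    ‖∑ h : H, ZMod.stdAddChar (a * ((h : (ZMod N)ˣ) : ZMod N))‖ ≤
      2 * C₁ * (Real.sqrt (y * EE A.card) / A.card) * Fintype.card H := by
  set f : H → UnitAddCircle := fun h => ZMod.toAddCircle (a * ((h : (ZMod N)ˣ) : ZMod N)) with hf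
  have hprob := avg_prob f
  have hinv : ∀ p ∈ A, Gap.Inv (avg f) p := by
    intro p hp
    obtain ⟨u, huH, hu⟩ := hH p hp
    refine avg_inv (Equiv.mulLeft (⟨u, huH⟩ : H)) ?_
    intro h
    rw [hf]
    simp only [Equiv.coe_mulLeft, Subgroup.coe_mul, Units.val_mul]
    rw [← map_nsmul, nsmul_eq_mul, hu]
    congr 1
    ring
  have hk1 : 1 ≤ A.card := Finset.card_pos.mpr hA0
  have hk0 : (0 : ℝ) < A.card := by exact_mod_cast hk1
  have hN0 : (0 : ℝ) < N := by exact_mod_cast Nat.pos_of_ne_zero (NeZero.ne N)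
  have hr : rr A.card ≤ 1 / N := by
    have h1 : 0 < rr A.card := Real.exp_pos _
    rw [le_div_iff₀ h1] at hN
    rw [le_div_iff₀ hN0]
    linarith
  have h1 := hco y A hA0 hA hAc (avg f) hprob hinv 1
  simp only [one_smul] at h1
  have h2 := avg_prod_le H hA0 (fun p hp => (hA p hp).2) hH ha hr
  have hE := one_le_EE A.card
  have hy0 : (0 : ℝ) ≤ y := Nat.cast_nonneg _
  set k : ℝ := (A.card : ℝ) with hk
  set E := EE A.card with hEdef
  have h3 : 1 / k ≤ E / k := div_le_div_of_nonneg_right hE hk0.le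
  have h4 : ‖∫ x, (fourier 1 x : ℂ) ∂(avg f)‖ ^ 2 ≤ (2 * C₁ * (Real.sqrt (y * E) / k)) ^ 2 := by
    refine le_trans h1 ?_
    have h5 : C₁ * (y / k) * (E / k + ((avg f).prod (avg f)).real {z | ‖z.1 - z.2‖ < rr A.card}) ≤
        C₁ * (y / k) * (2 * (E / k)) := by
      apply mul_le_mul_of_nonneg_left _ (by positivity)
      linarith
    refine le_trans h5 ?_
    have h6 : (2 * C₁ * (Real.sqrt (y * E) / k)) ^ 2 = 4 * C₁ ^ 2 * (y * E / k ^ 2) := by
      rw [mul_pow, mul_pow, div_pow, Real.sq_sqrt (by positivity)]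
      ring
    have h7 : C₁ * (y / k) * (2 * (E / k)) = 2 * C₁ * (y * E / k ^ 2) := by ring
    rw [h6, h7]
    apply mul_le_mul_of_nonneg_right _ (by positivity)
    nlinarith
  have h5 : ‖∫ x, (fourier 1 x : ℂ) ∂(avg f)‖ ≤ 2 * C₁ * (Real.sqrt (y * E) / k) :=
    le_of_sq_le_sq h4 (by positivity)
  rw [avg_integral] at h5
  have hcard : (0 : ℝ) < Fintype.card H := by exact_mod_cast Fintype.card_pos
  have e1 : ∀ h : H, (fourier 1 (f h) : ℂ) = ZMod.stdAddChar (a * ((h : (ZMod N)ˣ) : ZMod N)) := by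
    intro h
    rw [fourier_apply, one_smul, ZMod.stdAddChar_apply]
    rfl
  simp_rw [e1] at h5
  rw [norm_mul, norm_inv, Complex.norm_natCast, inv_mul_eq_div, div_le_iff₀ hcard] at h5
  exact h5

/-- Chebyshev's lower bound for all `y`. -/
lemma pi_ge : ∃ c₀ : ℝ, 0 < c₀ ∧ c₀ ≤ 1 ∧ ∀ y : ℕ, 2 ≤ y →
    c₀ * (y / Real.log y) ≤ Nat.primeCounting y := by
  obtain ⟨n₀, hn₀⟩ := eventually_atTop.mp pi_lower
  have hl2 : 0 < Real.log 2 := Real.log_pos (by norm_num)
  set M : ℝ := max (n₀ : ℝ) 1 with hM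
  have hM0 : 0 < M := lt_of_lt_of_le one_pos (le_max_right _ _)
  refine ⟨min (3 / 5) (Real.log 2 / M), lt_min (by norm_num) (by positivity),
    le_trans (min_le_left _ _) (by norm_num), ?_⟩
  intro y hy
  have hyR : (2 : ℝ) ≤ y := by exact_mod_cast hy
  have hly : Real.log 2 ≤ Real.log y := Real.log_le_log (by norm_num) hyR
  have hq : 0 ≤ (y : ℝ) / Real.log y := div_nonneg (by linarith) (by linarith)
  by_cases h : n₀ ≤ y
  · exact le_trans (mul_le_mul_of_nonneg_right (min_le_left _ _) hq) (hn₀ y h)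
  · have h1 : (1 : ℝ) ≤ Nat.primeCounting y := by
      have h2 : Nat.primeCounting 2 ≤ Nat.primeCounting y := Nat.monotone_primeCounting hy
      have h3 : Nat.primeCounting 2 = 1 := by decide
      rw [h3] at h2
      exact_mod_cast h2
    refine le_trans ?_ h1
    have h2 : (y : ℝ) ≤ M := by
      refine le_trans ?_ (le_max_left _ _)
      exact_mod_cast (by omega : y ≤ n₀)
    calc min (3 / 5) (Real.log 2 / M) * ((y : ℝ) / Real.log y) ≤
          Real.log 2 / M * (M / Real.log 2) := by
          apply mul_le_mul (min_le_right _ _) _ hq (by positivity)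
          apply div_le_div₀ hM0.le h2 hl2 hly
      _ = 1 := by field_simp

/-- **Fourier coefficients of measures invariant under `k` coprime multipliers up to `y`.** There
are `c, C > 0` such that for all `y`, every nonempty finite set `A` of pairwise coprime integers in
`[2, y]`, `k = |A|`, and `X = exp (exp (exp (c k)))`:
(1) for every probability measure `μ` on the circle invariant under `x ↦ p x` for all `p ∈ A` and
every integer `n`,
`|μ^(n)| ^ 2 ≤ C (y / k) ((1 + log (1 + log k)) / k + (μ × μ) {(x, x') : ‖n x - n x'‖ < 1 / X})`;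
(2) for every `N ≤ X`, every subgroup `H` of `(ℤ / N)ˣ` which contains the classes of all `p ∈ A`
and every `a` with `m a ≢ 0` modulo `N` for `1 ≤ m ≤ y`, the sum of `e (a h / N)` over `H` is at
most `C √(y (1 + log (1 + log k))) / k |H|` in absolute value;
(3) in particular, for `y ≥ 2`, `N ≤ exp (exp (exp (c y / log y)))`, every subgroup `H` of
`(ℤ / N)ˣ` which contains the classes of all primes up to `y` and every such `a`, the sum is at
most `C (log y) ^ 2 / √y |H|`. -/
theorem result : ∃ c C : ℝ, 0 < c ∧ 0 < C ∧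
    (∀ (y : ℕ) (A : Finset ℕ), A.Nonempty → (∀ p ∈ A, 2 ≤ p ∧ p ≤ y) →
      (A : Set ℕ).Pairwise Nat.Coprime →
      (∀ μ : Measure UnitAddCircle, IsProbabilityMeasure μ →
        (∀ p ∈ A, MeasurePreserving (fun x : UnitAddCircle => p • x) μ μ) → ∀ n : ℤ,
        ‖∫ x, (fourier n x : ℂ) ∂μ‖ ^ 2 ≤
          C * (y / A.card) * ((1 + Real.log (1 + Real.log A.card)) / A.card +
            (μ.prod μ).real {z | ‖n • z.1 - n • z.2‖ <
              1 / Real.exp (Real.exp (Real.exp (c * A.card)))})) ∧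
      (∀ N : ℕ, ∀ _ : NeZero N, (N : ℝ) ≤ Real.exp (Real.exp (Real.exp (c * A.card))) →
        ∀ H : Subgroup (ZMod N)ˣ, ∀ _ : Fintype H,
        (∀ p ∈ A, ∃ h ∈ H, ((h : (ZMod N)ˣ) : ZMod N) = p) →
        ∀ a : ZMod N, (∀ m : ℕ, 1 ≤ m → m ≤ y → (m : ZMod N) * a ≠ 0) →
        ‖∑ h : H, ZMod.stdAddChar (a * ((h : (ZMod N)ˣ) : ZMod N))‖ ≤
          C * (Real.sqrt (y * (1 + Real.log (1 + Real.log A.card))) / A.card) *
            Fintype.card H)) ∧
    (∀ y : ℕ, 2 ≤ y →
      ∀ N : ℕ, ∀ _ : NeZero N, (N : ℝ) ≤ Real.exp (Real.exp (Real.exp (c * (y / Real.log y)))) →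
        ∀ H : Subgroup (ZMod N)ˣ, ∀ _ : Fintype H,
        (∀ q : ℕ, q.Prime → q ≤ y → ∃ h ∈ H, ((h : (ZMod N)ˣ) : ZMod N) = q) →
        ∀ a : ZMod N, (∀ m : ℕ, 1 ≤ m → m ≤ y → (m : ZMod N) * a ≠ 0) →
        ‖∑ h : H, ZMod.stdAddChar (a * ((h : (ZMod N)ˣ) : ZMod N))‖ ≤
          C * (Real.log y ^ 2 / Real.sqrt y) * Fintype.card H) := by
  obtain ⟨C₁, hC₁, hco⟩ := coeff_all
  obtain ⟨c₀, hc₀, hc₀1, hπ⟩ := pi_ge
  set C : ℝ := 2 * C₁ * (3 / c₀) with hC
  have h3c : 3 ≤ 3 / c₀ := by
    rw [le_div_iff₀ hc₀]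
    linarith
  have hCC : 2 * C₁ ≤ C := by
    rw [hC]
    nlinarith
  have hC0 : 0 < C := by linarith
  have hX : ∀ {t s : ℝ}, t ≤ s → Real.exp (Real.exp (Real.exp t)) ≤
      Real.exp (Real.exp (Real.exp s)) := by
    intro t s h
    exact Real.exp_le_exp.mpr (Real.exp_le_exp.mpr (Real.exp_le_exp.mpr h))
  refine ⟨c₀ / 1000, C, by positivity, hC0, ?_, ?_⟩
  · intro y A hA0 hA hAc
    have hck : c₀ / 1000 * (A.card : ℝ) ≤ 1 / 1000 * A.card :=
      mul_le_mul_of_nonneg_right (by linarith) (Nat.cast_nonneg _)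
    refine ⟨?_, ?_⟩
    · intro μ hμ hinv n
      refine le_trans (hco y A hA0 hA hAc μ hμ hinv n) ?_
      have h1 : (μ.prod μ).real {z | ‖n • z.1 - n • z.2‖ < rr A.card} ≤
          (μ.prod μ).real {z | ‖n • z.1 - n • z.2‖ <
            1 / Real.exp (Real.exp (Real.exp (c₀ / 1000 * A.card)))} := by
        apply measureReal_mono _ (measure_ne_top _ _)
        intro z hz
        have hz' : ‖n • z.1 - n • z.2‖ < rr A.card := hz
        change ‖n • z.1 - n • z.2‖ < _
        refine lt_of_lt_of_le hz' ?_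
        rw [rr_eq]
        exact one_div_le_one_div_of_le (Real.exp_pos _) (hX hck)
      have hE := one_le_EE A.card
      have hm : 0 ≤ (μ.prod μ).real {z | ‖n • z.1 - n • z.2‖ < rr A.card} := measureReal_nonneg
      have h2 : 0 ≤ EE A.card / (A.card : ℝ) := by positivity
      have h3 : (0 : ℝ) ≤ y / A.card := by positivity
      change C₁ * (y / A.card) * (EE A.card / A.card +
        (μ.prod μ).real {z | ‖n • z.1 - n • z.2‖ < rr A.card}) ≤
        C * (y / A.card) * (EE A.card / A.card + (μ.prod μ).real {z | ‖n • z.1 - n • z.2‖ <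
            1 / Real.exp (Real.exp (Real.exp (c₀ / 1000 * A.card)))})
      apply mul_le_mul _ (by linarith) (by linarith) (by positivity)
      apply mul_le_mul_of_nonneg_right _ h3
      linarith
    · intro N hNe hN H hF hH a ha
      have hN' : (N : ℝ) ≤ 1 / rr A.card := by
        rw [rr_eq, one_div_one_div]
        exact le_trans hN (hX hck)
      refine le_trans (sub_all hC₁ hco y A hA0 hA hAc N hN' H hH a ha) ?_
      change 2 * C₁ * (Real.sqrt (y * EE A.card) / A.card) * Fintype.card H ≤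
        C * (Real.sqrt (y * EE A.card) / A.card) * Fintype.card H
      gcongr
  · intro y hy N hNe hN H hF hH a ha
    have hyR : (2 : ℝ) ≤ y := by exact_mod_cast hy
    have hy0 : (0 : ℝ) < y := by linarith
    set A := (Finset.range (y + 1)).filter Nat.Prime with hA
    have hcard : A.card = Nat.primeCounting y := by
      rw [hA, Nat.primeCounting, Nat.primeCounting', Nat.count_eq_card_filter_range]
    have hmem : ∀ p ∈ A, p.Prime ∧ p ≤ y := by
      intro p hp
      rw [hA, Finset.mem_filter, Finset.mem_range] at hp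
      exact ⟨hp.2, by omega⟩
    have hA0 : A.Nonempty := ⟨2, by
      rw [hA, Finset.mem_filter, Finset.mem_range]
      exact ⟨by omega, Nat.prime_two⟩⟩
    have hk1 : 1 ≤ A.card := Finset.card_pos.mpr hA0
    have hk0 : (0 : ℝ) < A.card := by exact_mod_cast hk1
    have hk := hπ y hy
    rw [← hcard] at hk
    have hl : 0.69 ≤ Real.log y := by
      have h1 := Real.log_two_gt_d9
      have h2 : Real.log 2 ≤ Real.log y := Real.log_le_log (by norm_num) hyR
      linarith
    have hN' : (N : ℝ) ≤ 1 / rr A.card := by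
      rw [rr_eq, one_div_one_div]
      refine le_trans hN (hX ?_)
      linarith
    refine le_trans (sub_all hC₁ hco y A hA0 (fun p hp => ⟨(hmem p hp).1.two_le, (hmem p hp).2⟩)
      (fun p hp q hq hpq => (Nat.coprime_primes (hmem p hp).1 (hmem q hq).1).mpr hpq) N hN' H
      (fun p hp => hH p (hmem p hp).1 (hmem p hp).2) a ha) ?_
    have hky : (A.card : ℝ) ≤ y := by
      have h1 : A.card ≤ y := by
        calc A.card ≤ (Finset.Icc 1 y).card := by
              apply Finset.card_le_card
              intro p hp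
              rw [Finset.mem_Icc]
              exact ⟨(hmem p hp).1.pos, (hmem p hp).2⟩
          _ = y := by simp
      exact_mod_cast h1
    have hE : EE A.card ≤ (3 * Real.log y) ^ 2 := by
      unfold EE
      have h1 : Real.log (A.card : ℝ) ≤ Real.log y := Real.log_le_log hk0 hky
      have h0 : 0 ≤ Real.log (A.card : ℝ) := Real.log_natCast_nonneg _
      have h2 : Real.log (1 + Real.log A.card) ≤ Real.log A.card := by
        have := Real.log_le_sub_one_of_pos (show 0 < 1 + Real.log (A.card : ℝ) by linarith)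
        linarith
      nlinarith
    have hsq : Real.sqrt (y * EE A.card) ≤ Real.sqrt y * (3 * Real.log y) := by
      rw [Real.sqrt_mul hy0.le]
      apply mul_le_mul_of_nonneg_left _ (Real.sqrt_nonneg _)
      rw [Real.sqrt_le_left (by linarith)]
      exact hE
    have h1 : Real.sqrt (y * EE A.card) / A.card ≤ 3 / c₀ * (Real.log y ^ 2 / Real.sqrt y) := by
      have hs0 : 0 < Real.sqrt y := Real.sqrt_pos.mpr hy0
      have hpos : 0 < c₀ * (y / Real.log y) := by
        apply mul_pos hc₀ (div_pos hy0 (by linarith))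
      calc Real.sqrt (y * EE A.card) / A.card ≤ Real.sqrt y * (3 * Real.log y) /
            (c₀ * (y / Real.log y)) := by
            apply div_le_div₀ (by positivity) hsq hpos hk
        _ = 3 / c₀ * (Real.log y ^ 2 / Real.sqrt y) := by
            have hl0 : Real.log y ≠ 0 := by linarith
            have hss : Real.sqrt y * Real.sqrt y = y := Real.mul_self_sqrt hy0.le
            field_simp
            rw [sq, hss]
    have h2 : 2 * C₁ * (Real.sqrt (y * EE A.card) / A.card) ≤
        C * (Real.log y ^ 2 / Real.sqrt y) := by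
      rw [hC, mul_assoc (2 * C₁)]
      exact mul_le_mul_of_nonneg_left h1 (by linarith)
    exact mul_le_mul_of_nonneg_right h2 (Nat.cast_nonneg _)

end Pool.Agent.H237.Sieve.Variant
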